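import Pool.Agent.U901.ZF.LCA
import Pool.Agent.W388.TW.Good
import Pool.Agent.W388.TW.XDir
import Pool.Agent.W482.TW.Id
import Pool.Agent.W108.TW.Mellin
import Pool.Agent.W440.TW.Twist
import Pool.Agent.W820.TW.FE
import Pool.Agent.Y771.NF.Inst

set_option autoImplicit false

/-!
# Project ZF (helper309), package LCONT: the entire continuation of `L(f, s)`
-/

namespace Pool.Agent.U901.ZF

open UpperHalfPlane hiding I
open MatrixGroups CongruenceSubgroup Filter Topology Complex
open Pool.Agent.U309.ZF (IsFormOf coef lam W S_LCONT)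
open W388 (lamf cS HeckeSeq IsNewf FE2)
open ArithmeticFunction (vonMangoldt)
open scoped ComplexConjugate

theorem p_dir : W388.StDir :=
  W388.XDir.t_dir Pool.Agent.W482.TW.t_id1 Pool.Agent.Y771.NF.p_sel

theorem chi_one (n : ℕ) : (1 : DirichletCharacter ℂ 1) (n : ZMod 1) = 1 := by
  have : (n : ZMod 1) = 1 := Subsingleton.elim _ _
  rw [this, map_one]

theorem t_LCONT : S_LCONT := by
  intro a b N _ f w _ hf
  have hN : 0 < N := Nat.pos_of_ne_zero (NeZero.ne N)
  have hN1 : (1 : ℝ) ≤ N := by exact_mod_cast hN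
  have hnf := isNewf_of hf
  have hH : HeckeSeq N (lamf f) := W388.heckeSeq_lamf hnf
  have hR := Pool.Agent.Y771.NF.p_rs N 2 (by norm_num) f w hnf
  obtain ⟨A, hA1, hAs, hA, hdir⟩ := p_dir N hN (lamf f) hH hR
  have hsum : ∀ (q : ℕ) [NeZero q] (χ : DirichletCharacter ℂ q) (s : ℂ), 1 < s.re →
      Summable (fun n : ℕ => ‖χ (n : ZMod q) * (lamf f n : ℂ) * (n : ℂ) ^ (-s)‖) :=
    fun q _ χ s hs => (hdir q χ _ (fun s _ => rfl)).1 s hs
  obtain ⟨F, hFE, hser⟩ := W388.exists_twist Pool.Agent.W440.TW.t_twist Pool.Agent.W108.TW.t_mellin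
    (k := 2) (by norm_num) hnf hsum 1 (1 : DirichletCharacter ℂ 1)
    DirichletCharacter.isPrimitive_one_level_one (Nat.coprime_one_left N)
  obtain ⟨hsm, hne, hld, hup, hlow, -⟩ := hdir 1 (1 : DirichletCharacter ℂ 1) F hser
  have hFd : Differentiable ℂ F := hFE.diff
  -- log derivative
  have hld' : ∀ s : ℂ, 1 < s.re → logDeriv F s =
      -∑' n : ℕ, (cS N (lamf f) n : ℂ) * (vonMangoldt n : ℂ) * (n : ℂ) ^ (-s) := by
    intro s hs
    rw [logDeriv_apply, hld s hs]
    congr 1
    refine tsum_congr fun n => ?_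
    rw [chi_one, one_mul]
  have hldb : ∀ s : ℂ, 3 / 2 ≤ s.re → ‖deriv F s‖ ≤ A * ‖F s‖ := by
    intro s hs
    have h1 := hne s (by linarith)
    have h2 : deriv F s = logDeriv F s * F s := by
      rw [logDeriv_apply, div_mul_cancel₀ _ h1]
    rw [h2, norm_mul]
    refine mul_le_mul_of_nonneg_right ?_ (norm_nonneg _)
    rw [hld' s (by linarith), norm_neg]
    refine le_trans ?_ hA
    refine tsum_of_norm_bounded hAs.hasSum fun n => ?_
    rcases Nat.eq_zero_or_pos n with rfl | hn
    · simp
    · rw [norm_mul, norm_mul, Complex.norm_natCast_cpow_of_pos hn, Complex.norm_real, Complex.norm_real,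
        Real.norm_eq_abs, Real.norm_of_nonneg ArithmeticFunction.vonMangoldt_nonneg, neg_re]
      have hn1 : (1 : ℝ) ≤ n := by exact_mod_cast hn
      have h3 : (n : ℝ) ^ (-s.re) ≤ (n : ℝ) ^ (-(3 / 2) : ℝ) :=
        Real.rpow_le_rpow_of_exponent_le hn1 (by linarith)
      have h4 : 0 ≤ vonMangoldt n := ArithmeticFunction.vonMangoldt_nonneg
      calc |cS N (lamf f) n| * vonMangoldt n * (n : ℝ) ^ (-s.re) ≤
          |cS N (lamf f) n| * vonMangoldt n * (n : ℝ) ^ (-(3 / 2) : ℝ) := by gcongr
        _ = _ := by ring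
  have hA0 : 0 < A := by linarith
  -- lower bound
  have hlow' : ∀ s : ℂ, 3 / 2 ≤ s.re → A⁻¹ * Real.exp (-A) ≤ ‖F s‖ := by
    intro s hs
    have hAi : 0 < A⁻¹ := by positivity
    rcases le_or_gt 2 s.re with h2 | h2
    · have h3 := hlow s h2
      have h4 : Real.exp (-A) ≤ 1 := Real.exp_le_one_iff.mpr (by linarith)
      nlinarith
    · have hd : ∀ x : ℝ, HasDerivAt (fun x : ℝ => F ((x : ℂ) + s.im * I))
          (deriv F ((x : ℂ) + s.im * I)) x := by
        intro x
        have h1 : HasDerivAt F (deriv F ((x : ℂ) + s.im * I)) ((x : ℂ) + s.im * I) :=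
          (hFd _).hasDerivAt
        have h2 : HasDerivAt (fun z : ℂ => F (z + s.im * I)) (deriv F ((x : ℂ) + s.im * I)) (x : ℂ) :=
          h1.comp_add_const (x : ℂ) ((s.im : ℂ) * I)
        exact h2.comp_ofReal
      have hg := norm_le_gronwallBound_of_norm_deriv_right_le (f := fun x : ℝ => F ((x : ℂ) + s.im * I))
        (f' := fun x : ℝ => deriv F ((x : ℂ) + s.im * I)) (δ := ‖F s‖) (K := A) (ε := 0)
        (a := s.re) (b := 2) (fun x _ => (hd x).continuousAt.continuousWithinAt)
        (fun x _ => (hd x).hasDerivWithinAt) (by rw [Complex.re_add_im])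
        (fun x hx => by
          rw [add_zero]
          refine hldb _ ?_
          simp
          linarith [hx.1]) 2 ⟨h2.le, le_rfl⟩
      rw [gronwallBound_ε0] at hg
      have h3 := hlow (((2 : ℝ) : ℂ) + s.im * I) (by simp)
      have h4 : Real.exp (A * (2 - s.re)) ≤ Real.exp A := by
        apply Real.exp_le_exp.mpr
        nlinarith
      have h5 : A⁻¹ ≤ ‖F s‖ * Real.exp A := by
        refine h3.trans (hg.trans ?_)
        gcongr
      rw [Real.exp_neg]
      have h6 := Real.exp_pos A
      rw [← div_eq_mul_inv, div_le_iff₀ h6]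
      exact h5
  -- conjugation
  have hconj : ∀ s : ℂ, F (conj s) = conj (F s) := by
    obtain ⟨G, hG⟩ : ∃ G : ℂ → ℂ, G = fun s => conj (F (conj s)) := ⟨_, rfl⟩
    have hGd : Differentiable ℂ G := by
      intro s
      have h2 := (hFd (conj s)).hasDerivAt.conj_conj
      rw [Complex.conj_conj] at h2
      have h3 : G = fun s => (conj ∘ F ∘ conj) s := by
        rw [hG]
        rfl
      rw [h3]
      exact h2.differentiableAt
    have hFG : ∀ s : ℂ, 1 < s.re → F s = G s := by
      intro s hs
      have h1 : 1 < (conj s).re := by simpa using hs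
      rw [hG]
      simp only
      rw [hser s hs, hser _ h1, Complex.conj_tsum]
      refine tsum_congr fun n => ?_
      rw [chi_one, one_mul, map_mul, Complex.conj_ofReal]
      congr 1
      rcases Nat.eq_zero_or_pos n with rfl | hn
      · by_cases h0 : s = 0
        · subst h0; simp
        · rw [Nat.cast_zero, Complex.zero_cpow (neg_ne_zero.mpr h0), Complex.zero_cpow, map_zero]
          simpa using h0
      · have harg : ((n : ℕ) : ℂ).arg ≠ Real.pi := by
          rw [Complex.natCast_arg]
          exact Real.pi_pos.ne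
        have h := Complex.cpow_conj (n : ℂ) (-conj s) harg
        rw [Complex.conj_natCast, map_neg, Complex.conj_conj] at h
        exact h
    have h1 : AnalyticOnNhd ℂ F Set.univ := fun z _ => hFd.analyticAt z
    have h2 : AnalyticOnNhd ℂ G Set.univ := fun z _ => hGd.analyticAt z
    have h3 : F =ᶠ[𝓝 (2 : ℂ)] G := by
      have : ∀ᶠ z : ℂ in 𝓝 (2 : ℂ), 1 < z.re := by
        refine (Complex.continuous_re.isOpen_preimage _ isOpen_Ioi).mem_nhds ?_
        show (1 : ℝ) < (2 : ℂ).re
        norm_num
      filter_upwards [this] with z hz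
      exact hFG z hz
    have h4 := h1.eq_of_eventuallyEq h2 h3
    intro s
    have h5 := congrFun h4 (conj s)
    rw [hG] at h5
    simp only [Complex.conj_conj] at h5
    exact h5
  -- the coefficients
  obtain ⟨C1, hC1, hsp⟩ := sum_split (lam := lamf f) (fun n hn => cS_le hH (fun p hp => abs_lam_le hf hp)
    (fun p hp h => abs_lam_le_bad hf hp h) hn)
  have hlam : W (lamf f) = W (lam f) := by
    funext δ μ
    unfold W
    refine tsum_congr fun p => ?_
    rw [lamf_lam]
  -- growth
  have hA1' : 0 ≤ Real.log A := Real.log_nonneg hA1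
  have hAN : 1 ≤ 8 * (A * N) := by nlinarith
  have hlN : 0 ≤ Real.log (8 * (A * N)) := Real.log_nonneg hAN
  refine ⟨fun s => F (s - 1 / 2), C1 + A + Real.log A + Real.log (8 * (A * N)) + 2, by positivity,
    hFd.comp (by fun_prop), fun s hs => hne _ (by simp; linarith), fun s => ?_, fun s hs => ?_,
    fun s hs1 hs2 => ?_, fun δ μ hδ _ => ?_⟩
  · have e : conj s - 1 / 2 = conj (s - 1 / 2) := by
      rw [map_sub]
      congr 1
      rw [map_div₀, map_one]
      congr 1
      exact (Complex.conj_ofNat 2).symm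
    show F (conj s - 1 / 2) = conj (F (s - 1 / 2))
    rw [e, hconj]
  · refine le_trans ?_ (hlow' (s - 1 / 2) (by simp; linarith))
    rw [show A⁻¹ * Real.exp (-A) = Real.exp (-(Real.log A + A)) by
      rw [neg_add, Real.exp_add, Real.exp_neg (Real.log A), Real.exp_log hA0]]
    apply Real.exp_le_exp.mpr
    linarith
  · have ht3 : 3 ≤ |s.im| + 3 := by linarith [abs_nonneg s.im]
    have hlt : 1 ≤ Real.log (|s.im| + 3) := by
      rw [Real.le_log_iff_exp_le (by linarith)]
      linarith [Real.exp_one_lt_d9]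
    have him : (s - 1 / 2).im = s.im := by simp
    have hre : (s - 1 / 2).re = s.re - 1 / 2 := by simp
    rcases le_or_gt (s - 1 / 2).re (3 / 2) with h | h
    · have h1 := Pool.Agent.W820.TW.HH_bound (k := 2) (N := N) (Q := 1) (B := A) (by norm_num) hN1 le_rfl
        (by simpa using hFE) hup (s - 1 / 2) (by rw [hre]; linarith) h
      unfold Pool.Agent.W820.TW.HH at h1
      rw [Complex.ofReal_one, Complex.one_cpow, mul_one, norm_mul, norm_inv, norm_pow] at h1
      set z : ℂ := s - 1 / 2 + 3 + ((((((2 : ℤ) : ℝ) - 1) / 2 : ℝ)) : ℂ) with hz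
      have hz0 : z = s + 3 := by
        rw [hz]; push_cast; ring
      rw [hz0] at h1
      have hzre : (s + 3).re = s.re + 3 := by simp
      have hzp : 0 < ‖s + 3‖ := by
        have h5 := Complex.abs_re_le_norm (s + 3)
        rw [hzre, abs_of_pos (by linarith)] at h5
        linarith
      have h2 : ‖F (s - 1 / 2)‖ ≤ 2 * (A * N) * ‖s + 3‖ ^ 2 := by
        rw [← div_eq_mul_inv, div_le_iff₀ (by positivity)] at h1
        exact h1
      have h3 : ‖s + 3‖ ≤ 2 * (|s.im| + 3) := by
        refine (Complex.norm_le_abs_re_add_abs_im _).trans ?_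
        rw [hzre, abs_of_pos (by linarith)]
        have : (s + 3).im = s.im := by simp
        rw [this]
        rw [hre] at h
        have := abs_nonneg s.im
        linarith
      have hANp : 0 ≤ A * N := by positivity
      have h4 : ‖F (s - 1 / 2)‖ ≤ 8 * (A * N) * (|s.im| + 3) ^ 2 := by
        refine h2.trans ?_
        calc 2 * (A * N) * ‖s + 3‖ ^ 2 ≤ 2 * (A * N) * (2 * (|s.im| + 3)) ^ 2 := by gcongr
          _ = _ := by ring
      refine h4.trans ?_
      have hpos : 0 < 8 * (A * N) * (|s.im| + 3) ^ 2 := by positivity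
      rw [← Real.exp_log hpos]
      apply Real.exp_le_exp.mpr
      rw [Real.log_mul (by positivity) (by positivity), Real.log_pow]
      push_cast
      have h6 : Real.log (8 * (A * N)) ≤ Real.log (8 * (A * N)) * Real.log (|s.im| + 3) := by nlinarith
      have h7 : 0 ≤ (C1 + A + Real.log A) * Real.log (|s.im| + 3) := by positivity
      nlinarith
    · have h1 := hup (s - 1 / 2) h.le
      refine h1.trans ?_
      rw [← Real.exp_log hA0]
      apply Real.exp_le_exp.mpr
      rw [Real.exp_log hA0]
      have h6 : Real.log A ≤ Real.log A * Real.log (|s.im| + 3) := by nlinarith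
      have h7 : 0 ≤ (C1 + A + Real.log (8 * (A * N)) + 2) * Real.log (|s.im| + 3) := by positivity
      nlinarith
  · obtain ⟨hs1, hs2⟩ := hsp δ μ hδ
    set z : ℂ := (3 / 2 + δ : ℝ) + μ * Complex.I with hz
    have e0 : z - 1 / 2 = ((1 + δ : ℝ) : ℂ) + μ * I := by
      rw [hz]; push_cast; ring
    have e1 : logDeriv (fun s => F (s - 1 / 2)) z = logDeriv F (z - 1 / 2) := by
      rw [logDeriv_apply, logDeriv_apply]
      congr 1
      exact deriv_comp_sub_const (f := F) (1 / 2) z
    have hre1 : 1 < (z - 1 / 2).re := by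
      rw [e0]; simp; linarith
    rw [e1, hld' _ hre1, neg_re]
    have e2 : (∑' n : ℕ, (cS N (lamf f) n : ℂ) * (vonMangoldt n : ℂ) * (n : ℂ) ^ (-(z - 1 / 2))).re =
        ∑' n : ℕ, cS N (lamf f) n * vonMangoldt n * (n : ℝ) ^ (-(1 + δ)) * Real.cos (μ * Real.log n) := by
      rw [Complex.re_tsum]
      · refine tsum_congr fun n => ?_
        rcases Nat.eq_zero_or_pos n with rfl | hn
        · simp
        · have hn0 : (n : ℂ) ≠ 0 := by exact_mod_cast hn.ne'
          have hn1 : (0 : ℝ) < n := by exact_mod_cast hn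
          rw [← Complex.ofReal_mul, Complex.re_ofReal_mul]
          rw [mul_assoc (cS N (lamf f) n * vonMangoldt n)]
          congr 1
          have e3 : (n : ℂ) ^ (-(z - 1 / 2)) =
              (((n : ℝ) ^ (-(1 + δ)) : ℝ) : ℂ) * Complex.exp (((-(μ * Real.log n) : ℝ) : ℂ) * I) := by
            rw [e0, neg_add, Complex.cpow_add _ _ hn0]
            congr 1
            · rw [Complex.ofReal_cpow hn1.le]
              push_cast
              rfl
            · rw [Complex.cpow_def_of_ne_zero hn0, ← Complex.natCast_log]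
              congr 1
              push_cast
              ring
          rw [e3, Complex.re_ofReal_mul, Complex.exp_ofReal_mul_I_re, Real.cos_neg]
      · refine Summable.of_norm ?_
        have hs3 := ArithmeticFunction.LSeriesSummable_vonMangoldt (s := ((1 + δ : ℝ) : ℂ)) (by simpa using hδ)
        refine Summable.of_norm_bounded (hs3.norm.mul_left 2) fun n => ?_
        rw [norm_norm, LSeries.norm_term_eq]
        split_ifs with hn
        · subst hn
          simp
        · have hn' : 0 < n := Nat.pos_of_ne_zero hn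
          rw [norm_mul, norm_mul, Complex.norm_natCast_cpow_of_pos hn', Complex.norm_real,
            Complex.norm_real, Real.norm_eq_abs, Real.norm_of_nonneg ArithmeticFunction.vonMangoldt_nonneg,
            neg_re, e0]
          have e4 : (((1 + δ : ℝ) : ℂ) + μ * I).re = 1 + δ := by simp
          rw [e4, Complex.ofReal_re, div_eq_mul_inv, ← Real.rpow_neg (Nat.cast_nonneg n),
            ← mul_assoc]
          by_cases hpp : IsPrimePow n
          · have h3 := cS_le hH (fun p hp => abs_lam_le hf hp) (fun p hp h => abs_lam_le_bad hf hp h) hpp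
            have h4 : 0 ≤ vonMangoldt n := ArithmeticFunction.vonMangoldt_nonneg
            gcongr
          · rw [ArithmeticFunction.vonMangoldt_eq_zero_iff.mpr hpp]
            simp
    rw [e2, ← hlam]
    rw [abs_sub_comm] at hs2
    have e5 : ∀ x y : ℝ, -x + y = y - x := fun x y => by ring
    rw [e5]
    refine hs2.trans ?_
    have : 0 ≤ A + Real.log A + Real.log (8 * (A * N)) + 2 := by positivity
    linarith

end Pool.Agent.U901.ZF
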