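import Pool.Agent.W388.TW.D0
import Pool.Agent.U309.ZF.Stm

set_option autoImplicit false

/-!
# Project ZF (helper309), package LCONT: the coefficients of `-L'/L`
-/

namespace Pool.Agent.U901.ZF

open UpperHalfPlane hiding I
open MatrixGroups CongruenceSubgroup Filter Topology Complex
open Pool.Agent.U309.ZF (IsFormOf coef lam W)
open W388 (lamf cS HeckeSeq IsNewf)
open ArithmeticFunction (vonMangoldt)

section form

variable {a b : ℤ} {N : ℕ} {f : CuspForm (Gamma0 N : Subgroup (GL (Fin 2) ℝ)) 2} {w : ℝ}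

theorem isNewf_of (hf : IsFormOf a b N f w) : IsNewf N 2 f w := by
  refine ⟨hf.one, hf.real, hf.mul, fun p j hp => ?_, hf.sign, fun τ τ' h => ?_⟩
  · have := hf.pow p j hp
    unfold coef at this
    rw [this]
    norm_num
  · rw [hf.fricke τ τ' h]
    have hN : ((Real.sqrt N : ℝ) : ℂ) ^ 2 = N := by
      rw [← Complex.ofReal_pow, Real.sq_sqrt (Nat.cast_nonneg _), Complex.ofReal_natCast]
    have e : (((Real.sqrt N : ℝ) : ℂ) * (τ : ℂ) / Complex.I) ^ (2 : ℤ) = -((N : ℂ) * (τ : ℂ) ^ 2) := by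
      have : (((Real.sqrt N : ℝ) : ℂ) * (τ : ℂ) / Complex.I) ^ (2 : ℤ) =
          (((Real.sqrt N : ℝ) : ℂ) * (τ : ℂ) / Complex.I) ^ 2 := rfl
      rw [this, div_pow, mul_pow, hN, Complex.I_sq]
      ring
    rw [e]
    ring

theorem lamf_lam (p : ℕ) : lamf f p = lam f p := by
  unfold lamf lam coef
  rw [Real.sqrt_eq_rpow]
  congr 2
  norm_num

theorem abs_lam_le (hf : IsFormOf a b N f w) {p : ℕ} (hp : p.Prime) : |lamf f p| ≤ 2 := by
  rw [lamf_lam]
  unfold lam
  have hp0 : (0 : ℝ) < p := by exact_mod_cast hp.pos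
  have hs : 0 < √(p : ℝ) := Real.sqrt_pos.2 hp0
  have hs1 : 1 ≤ √(p : ℝ) := by
    rw [Real.one_le_sqrt]
    exact_mod_cast hp.one_lt.le
  rw [abs_div, abs_of_pos hs, div_le_iff₀ hs]
  refine (Complex.abs_re_le_norm _).trans ?_
  by_cases h : p ∣ N
  · rcases hf.bad p hp h with h1 | h1 | h1 <;> rw [h1] <;> norm_num <;> linarith
  · exact hf.good p hp h

theorem abs_lam_le_bad (hf : IsFormOf a b N f w) {p : ℕ} (hp : p.Prime) (h : p ∣ N) :
    |lamf f p| ≤ 1 := by
  rw [lamf_lam]
  unfold lam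
  have hp0 : (0 : ℝ) < p := by exact_mod_cast hp.pos
  have hs : 0 < √(p : ℝ) := Real.sqrt_pos.2 hp0
  have hs1 : 1 ≤ √(p : ℝ) := by
    rw [Real.one_le_sqrt]
    exact_mod_cast hp.one_lt.le
  rw [abs_div, abs_of_pos hs, div_le_iff₀ hs]
  refine (Complex.abs_re_le_norm _).trans ?_
  have h2 : ‖coef f p‖ ≤ 1 := by
    rcases hf.bad p hp h with h1 | h1 | h1 <;> rw [h1] <;> simp
  linarith

end form

/-- `u_{j+2} - u_j = 2 cos ((j+2) θ)` -/
theorem cheb {u : ℕ → ℝ} {θ : ℝ} (h0 : u 0 = 1) (h1 : u 1 = 2 * Real.cos θ)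
    (h : ∀ j, u (j + 2) = 2 * Real.cos θ * u (j + 1) - u j) (j : ℕ) :
    u (j + 2) - u j = 2 * Real.cos ((j + 2) * θ) ∧
      u (j + 3) - u (j + 1) = 2 * Real.cos ((j + 3) * θ) := by
  have key : ∀ x : ℝ, Real.cos ((x + 2) * θ) = 2 * Real.cos θ * Real.cos ((x + 1) * θ) -
      Real.cos (x * θ) := by
    intro x
    have e1 : (x + 2) * θ = (x + 1) * θ + θ := by ring
    have e2 : x * θ = (x + 1) * θ - θ := by ring
    rw [e1, e2, Real.cos_add, Real.cos_sub]
    ring
  induction j with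
  | zero =>
    have e2 := key 0
    have e3 := key 1
    simp only [zero_add, zero_mul, Real.cos_zero, one_mul] at e2 e3
    have e4 : (1 : ℝ) + 2 = 3 := by norm_num
    have e5 : (1 : ℝ) + 1 = 2 := by norm_num
    rw [e4, e5] at e3
    have a2 := h 0
    have a3 := h 1
    simp only [Nat.cast_zero, zero_add]
    norm_num at a2 a3 ⊢
    constructor
    · rw [a2, h0, h1, e2]; ring
    · rw [a3, a2, h0, h1, e3, e2]; ring
  | succ j ih =>
    obtain ⟨i1, i2⟩ := ih
    have a1 := h (j + 2)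
    have a2 := h j
    have a3 := h (j + 1)
    have k1 := key ((j : ℝ) + 2)
    refine ⟨?_, ?_⟩
    · have e : ((j + 1 : ℕ) : ℝ) + 2 = j + 3 := by push_cast; ring
      rw [e]
      exact i2
    · have e : ((j + 1 : ℕ) : ℝ) + 3 = (j : ℝ) + 2 + 2 := by push_cast; ring
      rw [e, k1]
      have e2 : (j : ℝ) + 2 + 1 = j + 3 := by ring
      rw [e2]
      show u (j + 2 + 2) - u (j + 2) = _
      rw [a1]
      have a2' : u (j + 2) = 2 * Real.cos θ * u (j + 1) - u j := a2
      have i2' : u (j + 2 + 1) - u (j + 1) = 2 * Real.cos ((j + 3) * θ) := i2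
      have i1' : u (j + 2) - u j = 2 * Real.cos ((j + 2) * θ) := i1
      linear_combination (2 * Real.cos θ) * i2' - i1' - a2'

theorem cS_le {N : ℕ} {lam : ℕ → ℝ} (h : HeckeSeq N lam) (hg : ∀ p : ℕ, p.Prime → |lam p| ≤ 2)
    (hb : ∀ p : ℕ, p.Prime → p ∣ N → |lam p| ≤ 1) {n : ℕ} (hn : IsPrimePow n) :
    |cS N lam n| ≤ 2 := by
  obtain ⟨p, j, hp, hj, rfl⟩ := hn
  have hp' : p.Prime := hp.nat_prime
  have hmf : (p ^ j).minFac = p := Nat.Prime.pow_minFac hp' hj.ne'
  unfold cS
  rw [hmf]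
  by_cases hpN : p ∣ N
  · rw [if_neg (by tauto), sub_zero]
    have : ∀ i, lam (p ^ i) = lam p ^ i := by
      intro i
      induction i using Nat.strong_induction_on with
      | _ i ih =>
        match i with
        | 0 => simp [h.one]
        | 1 => simp
        | i + 2 =>
          rw [h.pow p i hp', if_pos hpN, sub_zero, ih (i + 1) (by omega)]
          ring
    rw [this, abs_pow]
    have h1 := hb p hp' hpN
    have := pow_le_one₀ (abs_nonneg (lam p)) h1 (n := j)
    linarith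
  · obtain ⟨θ, hθ⟩ : ∃ θ : ℝ, lam p = 2 * Real.cos θ := by
      refine ⟨Real.arccos (lam p / 2), ?_⟩
      have h1 := abs_le.mp (hg p hp')
      rw [Real.cos_arccos (by linarith [h1.1]) (by linarith [h1.2])]
      ring
    have hc := cheb (u := fun i => lam (p ^ i)) (θ := θ) (by simp [h.one]) (by simpa using hθ)
      (fun i => by
        have := h.pow p i hp'
        rw [if_neg hpN, hθ] at this
        exact this)
    rcases Nat.lt_or_ge j 2 with hj2 | hj2
    · have : j = 1 := by omega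
      subst this
      rw [if_neg, sub_zero, pow_one]
      · exact hg p hp'
      · rintro ⟨h1, -⟩
        rw [pow_one] at h1
        have := Nat.le_of_dvd hp'.pos h1
        have := hp'.one_lt
        nlinarith
    · obtain ⟨i, rfl⟩ := Nat.exists_eq_add_of_le hj2
      rw [if_pos ⟨pow_dvd_pow p hj2, hpN⟩]
      have e : p ^ (2 + i) / p ^ 2 = p ^ i := by
        rw [pow_add, Nat.mul_div_cancel_left _ (pow_pos hp'.pos 2)]
      rw [e]
      have h2 : lam (p ^ (i + 2)) - lam (p ^ i) = 2 * Real.cos ((i + 2) * θ) := (hc i).1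
      have e2 : 2 + i = i + 2 := by omega
      rw [e2, h2, abs_mul, abs_two]
      have := Real.abs_cos_le_one ((i + 2) * θ)
      linarith

theorem cS_prime {N : ℕ} {lam : ℕ → ℝ} {p : ℕ} (hp : p.Prime) : cS N lam p = lam p := by
  unfold cS
  rw [hp.minFac_eq, if_neg, sub_zero]
  rintro ⟨h1, -⟩
  have := Nat.le_of_dvd hp.pos h1
  have := hp.one_lt
  nlinarith

/-- the contribution of the proper prime powers -/
theorem sum_split {N : ℕ} {lam : ℕ → ℝ} (hc : ∀ n : ℕ, IsPrimePow n → |cS N lam n| ≤ 2) :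
    ∃ C : ℝ, 0 ≤ C ∧ ∀ δ μ : ℝ, 0 < δ →
      Summable (fun n : ℕ => cS N lam n * vonMangoldt n * (n : ℝ) ^ (-(1 + δ)) *
        Real.cos (μ * Real.log n)) ∧
      |(∑' n : ℕ, cS N lam n * vonMangoldt n * (n : ℝ) ^ (-(1 + δ)) * Real.cos (μ * Real.log n)) -
        W lam δ μ| ≤ C := by
  have hS : Summable fun n : ℕ => (if n.Prime then 0 else vonMangoldt n) / n := by
    have := ArithmeticFunction.vonMangoldt.summable_residueClass_non_primes_div (q := 1) (a := 0)
    refine this.congr fun n => ?_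
    split_ifs with hn
    · rfl
    · unfold ArithmeticFunction.vonMangoldt.residueClass
      rw [Set.indicator_of_mem]
      exact Subsingleton.elim _ _
  refine ⟨2 * ∑' n : ℕ, (if n.Prime then 0 else vonMangoldt n) / n, ?_, fun δ μ hδ => ?_⟩
  · refine mul_nonneg (by norm_num) (tsum_nonneg fun n => ?_)
    split_ifs
    · simp
    · exact div_nonneg ArithmeticFunction.vonMangoldt_nonneg (Nat.cast_nonneg n)
  set g : ℕ → ℝ := fun n => cS N lam n * vonMangoldt n * (n : ℝ) ^ (-(1 + δ)) *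
    Real.cos (μ * Real.log n) with hgdef
  have hgle : ∀ n, |g n| ≤ 2 * (vonMangoldt n * (n : ℝ) ^ (-(1 + δ))) := by
    intro n
    have h0 : 0 ≤ vonMangoldt n := ArithmeticFunction.vonMangoldt_nonneg
    have h1 : (0 : ℝ) ≤ (n : ℝ) ^ (-(1 + δ)) := by positivity
    have h2 := Real.abs_cos_le_one (μ * Real.log n)
    rw [hgdef]
    simp only
    rw [abs_mul, abs_mul, abs_mul, abs_of_nonneg h0, abs_of_nonneg h1]
    by_cases hn : IsPrimePow n
    · have h3 := hc n hn
      calc |cS N lam n| * vonMangoldt n * (n : ℝ) ^ (-(1 + δ)) * |Real.cos (μ * Real.log n)| ≤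
          2 * vonMangoldt n * (n : ℝ) ^ (-(1 + δ)) * 1 := by gcongr
        _ = _ := by ring
    · rw [ArithmeticFunction.vonMangoldt_eq_zero_iff.mpr hn]
      simp
  have hsv : Summable fun n : ℕ => vonMangoldt n * (n : ℝ) ^ (-(1 + δ)) := by
    have h1 := ArithmeticFunction.LSeriesSummable_vonMangoldt (s := ((1 + δ : ℝ) : ℂ))
      (by simpa using hδ)
    have h2 := h1.norm
    refine h2.congr fun n => ?_
    rw [LSeries.norm_term_eq]
    split_ifs with hn
    · subst hn
      simp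
    · rw [Complex.ofReal_re, Real.rpow_neg (Nat.cast_nonneg n), div_eq_mul_inv]
      congr 1
      rw [Complex.norm_real, Real.norm_of_nonneg ArithmeticFunction.vonMangoldt_nonneg]
  have hgs : Summable g :=
    Summable.of_norm_bounded (hsv.mul_left 2) (fun n => by rw [Real.norm_eq_abs]; exact hgle n)
  refine ⟨hgs, ?_⟩
  set g1 : ℕ → ℝ := Set.indicator {n : ℕ | n.Prime} g with hg1
  set g2 : ℕ → ℝ := Set.indicator {n : ℕ | n.Prime}ᶜ g with hg2
  have hsum1 : Summable g1 := hgs.indicator _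
  have hsum2 : Summable g2 := hgs.indicator _
  have e1 : ∑' n, g n = ∑' n, g1 n + ∑' n, g2 n := by
    rw [← hsum1.tsum_add hsum2]
    refine tsum_congr fun n => ?_
    exact (congrFun (Set.indicator_self_add_compl {n : ℕ | n.Prime} g) n).symm
  have e2 : ∑' n, g1 n = W lam δ μ := by
    rw [hg1, ← tsum_subtype]
    unfold W
    refine tsum_congr fun p => ?_
    rw [hgdef]
    simp only
    have hp : (p : ℕ).Prime := p.2
    rw [cS_prime hp, ArithmeticFunction.vonMangoldt_apply_prime hp]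
    ring
  rw [e1, e2, add_sub_cancel_left]
  have hs3 : Summable fun n : ℕ => 2 * ((if n.Prime then 0 else vonMangoldt n) / n) := hS.mul_left 2
  have h5 : ∀ n, ‖g2 n‖ ≤ 2 * ((if n.Prime then 0 else vonMangoldt n) / n) := by
    intro n
    by_cases hn : n.Prime
    · rw [hg2, Set.indicator_of_notMem (by simpa using hn), if_pos hn]
      simp
    · rw [hg2, Set.indicator_of_mem (by simpa using hn), if_neg hn, Real.norm_eq_abs]
      refine (hgle n).trans ?_
      have h0 : 0 ≤ vonMangoldt n := ArithmeticFunction.vonMangoldt_nonneg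
      rcases Nat.eq_zero_or_pos n with rfl | hn0
      · simp
      · have hn1 : (1 : ℝ) ≤ n := by exact_mod_cast hn0
        have : (n : ℝ) ^ (-(1 + δ)) ≤ (n : ℝ)⁻¹ := by
          rw [← Real.rpow_neg_one]
          exact Real.rpow_le_rpow_of_exponent_le hn1 (by linarith)
        rw [div_eq_mul_inv]
        gcongr
  have h6 := tsum_of_norm_bounded hs3.hasSum h5
  rw [Real.norm_eq_abs, tsum_mul_left] at h6
  exact h6

end Pool.Agent.U901.ZF
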